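import Pool.Agent.H27.L1.H69.GK.FLG
import Pool.Agent.H27.L1.H69.GK.PHK2

/-!
Targets of group K1 of the page ghk.
-/

namespace Pool.Agent.H27.L1.H69.GK

open MeasureTheory Pool.Agent.H27.L1.H34.GM Pool.Agent.H27.L1.H40.GHK

/-- the cutoff near the unit matrix -/
noncomputable def et {m : ℕ} (A : ℕ) (ρ : ℝ) (z : Mat m) : ℝ :=
  if fsq (z - 1) < ρ ^ 2 then (1 - fsq (z - 1) / ρ ^ 2) ^ A else 0

/-- the oscillating integral, form with the power functions -/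
def T_JKZ : Prop := ∀ m : ℕ, 1 ≤ m → ∃ ρ : ℝ, 0 < ρ ∧ ρ ≤ 1 / 2 ∧ ∀ (A : ℕ) (M : ℝ),
  ∃ C : ℝ, 0 < C ∧ ∀ mu : Fin m → ℂ, (∀ j, |(mu j).re| ≤ M) →
    Monotone (fun j => (mu j).im) → ∀ k k' : Mat m, k * k.transpose = 1 →
    k' * k'.transpose = 1 → ∃ G : ℝ, 0 ≤ G ∧
      (∀ p q : Fin m, (q : ℕ) = p + 1 →
        ((mu q).im - (mu p).im) / 2 * Real.sqrt (fsq (Ek k q - Ek k' q)) ≤ G) ∧
      ‖∫ z : V m, ((et A ρ (mt z) : ℝ) : ℂ) * (pw mu (mt z * k) *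
        (starRingEnd ℂ) (pw mu (mt z * k'))) ∂(hm m)‖ ≤ C * ((1 + G) ^ A)⁻¹

end Pool.Agent.H27.L1.H69.GK
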