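import Pool.Agent.H27.L1.H69.GK.K1C

/-!
Row K1A of the page ghk, the core, second part: Fubini.
-/

namespace Pool.Agent.H27.L1.H69.GK

open MeasureTheory Pool.Agent.H27.L1.H34.GM Pool.Agent.H27.L1.H40.GHK

/-- the product of the gaps -/
noncomputable def Pw {m : ℕ} (ν : Fin m → ℝ) : ℝ := ∏ i, ∏ l, (1 + gp ν i l)⁻¹

lemma Pw_pos {m : ℕ} (ν : Fin m → ℝ) : 0 < Pw ν := by
  unfold Pw
  refine Finset.prod_pos fun i _ => Finset.prod_pos fun l _ => inv_pos.mpr ?_
  have := gp_nn ν i l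
  linarith

lemma kap_bdd {m : ℕ} {κ : Mat m → ℝ} (hκ : Kap m κ) : ∃ B : ℝ, 0 < B ∧ ∀ z, κ z ≤ B := by
  obtain ⟨c, hc, hs⟩ := hκ.supp
  obtain ⟨B, hB⟩ := (RR_compact m c).exists_bound_of_continuousOn
    ((hκ.cont.comp (mt_cont (m := m))).continuousOn)
  refine ⟨max B 1, lt_of_lt_of_le one_pos (le_max_right _ _), fun z => ?_⟩
  by_cases h : κ z = 0
  · rw [h]
    exact zero_le_one.trans (le_max_right _ _)
  · have h1 := hB (fun i j => z i j) (hs z h)
    refine le_trans ?_ (le_max_left _ _)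
    exact (le_abs_self _).trans h1

/-- the quadratic form -/
lemma phi0_quad (hH : T_HAR) (hP : T_PWC) {m : ℕ} (hm1 : 1 ≤ m) {κ : Mat m → ℝ}
    (hκ : Kap m κ) {c : ℝ} (hc : 0 < c) (hs : ∀ z, κ z ≠ 0 → sz z ≤ c ∧ c⁻¹ ≤ |z.det|)
    {A : ℕ} (hA : 1 ≤ A) {ρ : ℝ} (hρ : 0 < ρ) (hρ1 : ρ ≤ 1 / 2) (mu : Fin m → ℂ) :
    ((∫ z : V m, et A ρ (mt z) * ‖phi0 κ mu (mt z)‖ ^ 2 ∂(hm m) : ℝ) : ℂ) =
      ∫ p, ((κ (mt p.1) : ℂ) * (κ (mt p.2) : ℂ)) * Jw A ρ mu (mt p.1) (mt p.2)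
        ∂(((hm m).restrict (RR m c)).prod ((hm m).restrict (RR m c))) := by
  obtain ⟨c', hc', hs'⟩ := ball_RR (m := m) hρ hρ1
  haveI i1 : IsFiniteMeasure ((hm m).restrict (RR m c)) :=
    ⟨by rw [Measure.restrict_apply_univ]; exact RR_fin hH hm1 hc⟩
  haveI i2 : IsFiniteMeasure ((hm m).restrict (RR m c')) :=
    ⟨by rw [Measure.restrict_apply_univ]; exact RR_fin hH hm1 hc'⟩
  have het : ∀ z : V m, et A ρ (mt z) ≠ 0 → z ∈ RR m c' := fun z hz => hs' _ (et_supp hz)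
  obtain ⟨ν, hν⟩ : ∃ ν, ν = ((hm m).restrict (RR m c)).prod ((hm m).restrict (RR m c)) :=
    ⟨_, rfl⟩
  haveI i3 : IsFiniteMeasure ν := by rw [hν]; infer_instance
  -- the kernel
  obtain ⟨q, hq⟩ : ∃ q : Mat m → V m → ℂ, ∀ z w, q z w =
    (κ (mt w) : ℂ) * (pw mu (z * mt w) / pw mu (mt w)) := ⟨_, fun _ _ => rfl⟩
  have hphi : ∀ z : Mat m, phi0 κ mu z = ∫ w in RR m c, q z w ∂(hm m) := by
    intro z
    rw [phi0_eq hs z]
    exact integral_congr_ae (Filter.Eventually.of_forall fun w => (hq z w).symm)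
  have hsq : ∀ z : Mat m, ((‖phi0 κ mu z‖ ^ 2 : ℝ) : ℂ) =
      ∫ p, q z p.1 * (starRingEnd ℂ) (q z p.2) ∂ν := by
    intro z
    rw [hν, integral_prod_mul (fun w => q z w) (fun w => (starRingEnd ℂ) (q z w)),
      integral_conj, ← hphi, Complex.mul_conj, Complex.normSq_eq_norm_sq]
  have hqc : ContinuousOn (fun p : Mat m × V m => q p.1 p.2) ({z | z.det ≠ 0} ×ˢ Set.univ) :=
    (kq_cont hP hm1 mu hκ).congr fun p _ => hq p.1 p.2
  have hcon : Continuous (fun p : V m × (V m × V m) => ((et A ρ (mt p.1) : ℝ) : ℂ) *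
      (q (mt p.1) p.2.1 * (starRingEnd ℂ) (q (mt p.1) p.2.2))) := by
    have hU : IsOpen (({z : V m | (mt z).det ≠ 0}) ×ˢ (Set.univ : Set (V m × V m))) :=
      (isOpen_ne.preimage (det_cont.comp mt_cont)).prod isOpen_univ
    have hZ : IsClosed ((RR m c') ×ˢ (Set.univ : Set (V m × V m))) :=
      (RR_compact m c').isClosed.prod isClosed_univ
    refine cont_ext hU hZ ?_ ?_ ?_ ?_
    · intro p hp
      exact ⟨RR_det hc' hp.1, trivial⟩
    · have h1 : ContinuousOn (fun p : V m × (V m × V m) => q (mt p.1) p.2.1)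
          ({z | (mt z).det ≠ 0} ×ˢ Set.univ) :=
        hqc.comp (f := fun p : V m × (V m × V m) => ((mt p.1, p.2.1) : Mat m × V m))
          (((mt_cont.comp continuous_fst).prodMk
            (continuous_fst.comp continuous_snd)).continuousOn) (fun p hp => ⟨hp.1, trivial⟩)
      have h2 : ContinuousOn (fun p : V m × (V m × V m) => q (mt p.1) p.2.2)
          ({z | (mt z).det ≠ 0} ×ˢ Set.univ) :=
        hqc.comp (f := fun p : V m × (V m × V m) => ((mt p.1, p.2.2) : Mat m × V m))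
          (((mt_cont.comp continuous_fst).prodMk
            (continuous_snd.comp continuous_snd)).continuousOn) (fun p hp => ⟨hp.1, trivial⟩)
      exact h1.mul (Complex.continuous_conj.comp_continuousOn h2)
    · exact Complex.continuous_ofReal.comp ((et_cont hA hρ).comp (mt_cont.comp continuous_fst))
    · intro p hp
      refine ⟨het _ fun h => hp ?_, trivial⟩
      rw [h, Complex.ofReal_zero]
  have hq0 : ∀ z w, w ∉ RR m c → q z w = 0 := by
    intro z w hw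
    have : κ (mt w) = 0 := by
      by_contra hcon
      exact hw (hs _ hcon)
    rw [hq, this, Complex.ofReal_zero, zero_mul]
  have hint : Integrable (Function.uncurry fun (z : V m) (p : V m × V m) =>
      ((et A ρ (mt z) : ℝ) : ℂ) * (q (mt z) p.1 * (starRingEnd ℂ) (q (mt z) p.2)))
      (((hm m).restrict (RR m c')).prod ν) := by
    refine Continuous.integrable_of_hasCompactSupport hcon ?_
    refine HasCompactSupport.intro ((RR_compact m c').prod
      ((RR_compact m c).prod (RR_compact m c))) fun p hp => ?_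
    by_contra hne
    apply hp
    have h3 : et A ρ (mt p.1) ≠ 0 := fun h => hne (by
      change ((et A ρ (mt p.1) : ℝ) : ℂ) * _ = 0
      rw [h, Complex.ofReal_zero, zero_mul])
    refine ⟨het _ h3, ?_, ?_⟩
    · by_contra h
      apply hne
      change ((et A ρ (mt p.1) : ℝ) : ℂ) *
        (q (mt p.1) p.2.1 * (starRingEnd ℂ) (q (mt p.1) p.2.2)) = 0
      rw [hq0 _ _ h, zero_mul, mul_zero]
    · by_contra h
      apply hne
      change ((et A ρ (mt p.1) : ℝ) : ℂ) *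
        (q (mt p.1) p.2.1 * (starRingEnd ℂ) (q (mt p.1) p.2.2)) = 0
      rw [hq0 _ p.2.2 h, map_zero, mul_zero, mul_zero]
  have h1 : ((∫ z : V m, et A ρ (mt z) * ‖phi0 κ mu (mt z)‖ ^ 2 ∂(hm m) : ℝ) : ℂ) =
      ∫ z in RR m c', ∫ p, ((et A ρ (mt z) : ℝ) : ℂ) *
        (q (mt z) p.1 * (starRingEnd ℂ) (q (mt z) p.2)) ∂ν ∂(hm m) := by
    rw [← integral_complex_ofReal, ← setIntegral_eq_integral_of_forall_compl_eq_zero
      (s := RR m c') fun z hz => by
        have : et A ρ (mt z) = 0 := by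
          by_contra hcon
          exact hz (het _ hcon)
        rw [this, zero_mul, Complex.ofReal_zero]]
    refine integral_congr_ae (Filter.Eventually.of_forall fun z => ?_)
    change ((et A ρ (mt z) * ‖phi0 κ mu (mt z)‖ ^ 2 : ℝ) : ℂ) = _
    rw [Complex.ofReal_mul, hsq, ← integral_const_mul]
  rw [h1, integral_integral_swap hint, ← hν]
  refine integral_congr_ae (Filter.Eventually.of_forall fun p => ?_)
  change ∫ z in RR m c', ((et A ρ (mt z) : ℝ) : ℂ) *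
    (q (mt z) p.1 * (starRingEnd ℂ) (q (mt z) p.2)) ∂(hm m) =
    ((κ (mt p.1) : ℂ) * (κ (mt p.2) : ℂ)) * Jw A ρ mu (mt p.1) (mt p.2)
  rw [setIntegral_eq_integral_of_forall_compl_eq_zero fun z hz => by
    have : et A ρ (mt z) = 0 := by
      by_contra hcon
      exact hz (het _ hcon)
    rw [this, Complex.ofReal_zero, zero_mul]]
  unfold Jw
  rw [← integral_const_mul]
  refine integral_congr_ae (Filter.Eventually.of_forall fun z => ?_)
  change ((et A ρ (mt z) : ℝ) : ℂ) *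
    (q (mt z) p.1 * (starRingEnd ℂ) (q (mt z) p.2)) =
    ((κ (mt p.1) : ℂ) * (κ (mt p.2) : ℂ)) * (((et A ρ (mt z) : ℝ) : ℂ) *
      ((pw mu (mt z * mt p.1) / pw mu (mt p.1)) *
      (starRingEnd ℂ) (pw mu (mt z * mt p.2) / pw mu (mt p.2))))
  rw [hq, hq, map_mul, Complex.conj_ofReal]
  ring

/-- the core of K1A -/
theorem k1core (hH : T_HAR) (hP : T_PWC) (hJ : T_JKZ) {m : ℕ} (hm1 : 1 ≤ m)
    {κ : Mat m → ℝ} (hκ : Kap m κ) : ∃ r : ℝ, 0 < r ∧ r ≤ 1 / (4 * (m : ℝ)) ∧ ∀ M : ℝ,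
      ∃ C : ℝ, 0 < C ∧ ∀ mu : Fin m → ℂ, (∀ j, |(mu j).re| ≤ M) →
        Monotone (fun j => (mu j).im) →
        ∫ z in {z : V m | sz (mt z - 1) ≤ r}, ‖phi0 κ mu (mt z)‖ ^ 2 ∂(hm m) ≤
          C * Pw (fun j => (mu j).im) := by
  have hm0 : (1 : ℝ) ≤ m := by exact_mod_cast hm1
  obtain ⟨ρ, hρ, hρ1, hJ1⟩ := Jw_le hJ hm1
  obtain ⟨c, hc, hs⟩ := hκ.supp
  obtain ⟨c', hc', hs'⟩ := ball_RR (m := m) hρ hρ1
  obtain ⟨B, hB, hκB⟩ := kap_bdd hκ
  obtain ⟨R, hR⟩ : ∃ R : ℝ, R = max 1 c := ⟨_, rfl⟩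
  have hR1 : 1 ≤ R := by rw [hR]; exact le_max_left _ _
  have hcR : c ≤ R := by rw [hR]; exact le_max_right _ _
  obtain ⟨A, hA⟩ : ∃ A : ℕ, A = 2 * (m * m) := ⟨_, rfl⟩
  have hA1 : 1 ≤ A := by
    rw [hA]
    have : 1 ≤ m * m := Nat.one_le_iff_ne_zero.mpr (by positivity)
    omega
  obtain ⟨h, hh⟩ : ∃ h : ℝ, h = (hm m (RR m c)).toReal := ⟨_, rfl⟩
  refine ⟨ρ / (2 * m), by positivity, ?_, fun M => ?_⟩
  · rw [div_le_div_iff₀ (by positivity) (by positivity)]
    nlinarith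
  obtain ⟨C1, hC1, h1⟩ := hJ1 M R hR1
  obtain ⟨C2, hC2, h2⟩ := pf_VOK hH m hm1 R hR1
  refine ⟨(4 / 3) ^ A * (B * B * C1 * C2 * (h + 1)), ?_, fun mu hM hmono => ?_⟩
  · have : 0 ≤ h := by rw [hh]; exact ENNReal.toReal_nonneg
    positivity
  have hh0 : 0 ≤ h := by rw [hh]; exact ENNReal.toReal_nonneg
  have hPp := Pw_pos (fun j => (mu j).im)
  haveI i1 : IsFiniteMeasure ((hm m).restrict (RR m c)) :=
    ⟨by rw [Measure.restrict_apply_univ]; exact RR_fin hH hm1 hc⟩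
  -- the quadratic form
  have hI : ∫ z : V m, et A ρ (mt z) * ‖phi0 κ mu (mt z)‖ ^ 2 ∂(hm m) ≤
      B * B * C1 * C2 * (h + 1) * Pw (fun j => (mu j).im) := by
    have hquad := phi0_quad hH hP hm1 hκ hc hs hA1 hρ hρ1 mu
    obtain ⟨I, hIe⟩ : ∃ I : ℝ, I = ∫ z : V m, et A ρ (mt z) *
      ‖phi0 κ mu (mt z)‖ ^ 2 ∂(hm m) := ⟨_, rfl⟩
    rw [← hIe] at hquad ⊢
    have hI0 : 0 ≤ I := by
      rw [hIe]
      exact integral_nonneg fun z => mul_nonneg (et_nn hA1 hρ _) (sq_nonneg _)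
    have h3 : ENNReal.ofReal I ≤ ∫⁻ p, ‖((κ (mt p.1) : ℂ) * (κ (mt p.2) : ℂ)) *
        Jw A ρ mu (mt p.1) (mt p.2)‖ₑ
        ∂(((hm m).restrict (RR m c)).prod ((hm m).restrict (RR m c))) := by
      have h4 : ENNReal.ofReal I = ‖(I : ℂ)‖ₑ := by
        rw [← ofReal_norm_eq_enorm, Complex.norm_real, Real.norm_of_nonneg hI0]
      rw [h4, hquad]
      exact enorm_integral_le_lintegral_enorm _
    have h5 : ∀ w ∈ RR m c, ∫⁻ w' in RR m c, ‖((κ (mt w) : ℂ) * (κ (mt w') : ℂ)) *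
        Jw A ρ mu (mt w) (mt w')‖ₑ ∂(hm m) ≤
        ENNReal.ofReal (B * B * C1 * C2 * Pw (fun j => (mu j).im)) := by
      intro w hw
      obtain ⟨u, hu, hb⟩ := h1 mu hM hmono (mt w) (RR_det hc hw)
      have h6 : ∀ w' ∈ RR m c, ‖((κ (mt w) : ℂ) * (κ (mt w') : ℂ)) *
          Jw A ρ mu (mt w) (mt w')‖ₑ ≤
          ENNReal.ofReal (B * B * C1) *
            ENNReal.ofReal (vk R (fun j => (mu j).im) u (mt w')) := by
        intro w' hw'
        have h7 := hb (mt w') (hw'.1.trans hcR)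
          ((inv_anti₀ hc hcR).trans hw'.2)
        rw [← hA] at h7
        rw [← ofReal_norm_eq_enorm, ← ENNReal.ofReal_mul (by positivity), norm_mul, norm_mul,
          Complex.norm_real, Complex.norm_real, Real.norm_of_nonneg (hκ.nn _),
          Real.norm_of_nonneg (hκ.nn _)]
        refine ENNReal.ofReal_le_ofReal ?_
        calc κ (mt w) * κ (mt w') * ‖Jw A ρ mu (mt w) (mt w')‖ ≤
              B * B * (C1 * vk R (fun j => (mu j).im) u (mt w')) :=
              mul_le_mul (mul_le_mul (hκB _) (hκB _) (hκ.nn _) hB.le) h7 (norm_nonneg _)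
                (by positivity)
          _ = B * B * C1 * vk R (fun j => (mu j).im) u (mt w') := by ring
      calc ∫⁻ w' in RR m c, ‖((κ (mt w) : ℂ) * (κ (mt w') : ℂ)) *
            Jw A ρ mu (mt w) (mt w')‖ₑ ∂(hm m)
          ≤ ∫⁻ w' in RR m c, ENNReal.ofReal (B * B * C1) *
            ENNReal.ofReal (vk R (fun j => (mu j).im) u (mt w')) ∂(hm m) :=
            setLIntegral_mono' (RR_meas m c) h6
        _ ≤ ∫⁻ w', ENNReal.ofReal (B * B * C1) *
            ENNReal.ofReal (vk R (fun j => (mu j).im) u (mt w')) ∂(hm m) :=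
            setLIntegral_le_lintegral _ _
        _ = ENNReal.ofReal (B * B * C1) *
            ∫⁻ w', ENNReal.ofReal (vk R (fun j => (mu j).im) u (mt w')) ∂(hm m) :=
            lintegral_const_mul' _ _ ENNReal.ofReal_ne_top
        _ ≤ ENNReal.ofReal (B * B * C1) * ENNReal.ofReal (C2 * ∏ i, ∏ l,
            (1 + gp (fun j => (mu j).im) i l)⁻¹) := by
            gcongr
            exact h2 (fun j => (mu j).im) u hu
        _ = ENNReal.ofReal (B * B * C1 * C2 * Pw (fun j => (mu j).im)) := by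
            rw [← ENNReal.ofReal_mul (by positivity)]
            unfold Pw
            congr 1
            ring
    have h8 : ENNReal.ofReal I ≤
        ENNReal.ofReal (B * B * C1 * C2 * Pw (fun j => (mu j).im)) * hm m (RR m c) := by
      refine h3.trans ((lintegral_prod_le _).trans ?_)
      calc ∫⁻ w in RR m c, ∫⁻ w' in RR m c, ‖((κ (mt w) : ℂ) * (κ (mt w') : ℂ)) *
            Jw A ρ mu (mt w) (mt w')‖ₑ ∂(hm m) ∂(hm m)
          ≤ ∫⁻ _w in RR m c,
            ENNReal.ofReal (B * B * C1 * C2 * Pw (fun j => (mu j).im)) ∂(hm m) :=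
            setLIntegral_mono' (RR_meas m c) h5
        _ = ENNReal.ofReal (B * B * C1 * C2 * Pw (fun j => (mu j).im)) * hm m (RR m c) := by
            rw [setLIntegral_const]
    have h9 : hm m (RR m c) ≤ ENNReal.ofReal (h + 1) := by
      rw [← ENNReal.ofReal_toReal (RR_fin hH hm1 hc).ne]
      refine ENNReal.ofReal_le_ofReal ?_
      rw [hh]
      linarith
    have h10 : ENNReal.ofReal I ≤
        ENNReal.ofReal (B * B * C1 * C2 * Pw (fun j => (mu j).im) * (h + 1)) := by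
      rw [ENNReal.ofReal_mul (by positivity)]
      exact h8.trans (by gcongr)
    have h11 := (ENNReal.ofReal_le_ofReal_iff (by positivity)).mp h10
    calc I ≤ B * B * C1 * C2 * Pw (fun j => (mu j).im) * (h + 1) := h11
      _ = B * B * C1 * C2 * (h + 1) * Pw (fun j => (mu j).im) := by ring
  -- comparison with the cutoff
  have hopen : IsOpen {z : Mat m | z.det ≠ 0} := isOpen_ne.preimage det_cont
  have hpc := phi0_cont hH hP hm1 mu hκ
  have hnc : ContinuousOn (fun z : Mat m => ((‖phi0 κ mu z‖ ^ 2 : ℝ) : ℂ))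
      {z | z.det ≠ 0} := Complex.continuous_ofReal.comp_continuousOn (hpc.norm.pow 2)
  have hint : Integrable (fun z : V m => et A ρ (mt z) * ‖phi0 κ mu (mt z)‖ ^ 2) (hm m) := by
    have h3 : Continuous (fun z : Mat m => ((et A ρ z : ℝ) : ℂ) *
        ((‖phi0 κ mu z‖ ^ 2 : ℝ) : ℂ)) :=
      cont_ext hopen (tst_closed c') (tst_sub hc') hnc
        (Complex.continuous_ofReal.comp (et_cont hA1 hρ)) (fun z hz => hs' z (et_supp fun h =>
          hz (by rw [h, Complex.ofReal_zero])))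
    have h4 := int_RR hH hm1 hc' (h3.comp mt_cont) fun z hz => by
      refine hs' (mt z) (et_supp (A := A) fun h => hz ?_)
      change ((et A ρ (mt z) : ℝ) : ℂ) * _ = 0
      rw [h, Complex.ofReal_zero, zero_mul]
    refine h4.re.congr (Filter.Eventually.of_forall fun z => ?_)
    change (((et A ρ (mt z) : ℝ) : ℂ) * ((‖phi0 κ mu (mt z)‖ ^ 2 : ℝ) : ℂ)).re = _
    rw [← Complex.ofReal_mul, Complex.ofReal_re]
  have hBmeas : MeasurableSet {z : V m | sz (mt z - 1) ≤ ρ / (2 * m)} :=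
    (isClosed_le (sz_cont.comp ((mt_cont (m := m)).sub continuous_const))
      continuous_const).measurableSet
  have hpt : ∀ z ∈ {z : V m | sz (mt z - 1) ≤ ρ / (2 * m)}, ‖phi0 κ mu (mt z)‖ ^ 2 ≤
      (4 / 3) ^ A * (et A ρ (mt z) * ‖phi0 κ mu (mt z)‖ ^ 2) := by
    intro z hz
    have h3 : fsq (mt z - 1) ≤ ρ ^ 2 / 4 := by
      refine (fsq_le_sz _).trans ?_
      have h4 : m * sz (mt z - 1) ≤ ρ / 2 := by
        calc m * sz (mt z - 1) ≤ m * (ρ / (2 * m)) :=
              mul_le_mul_of_nonneg_left hz (by positivity)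
          _ = ρ / 2 := by field_simp
      have h5 : 0 ≤ m * sz (mt z - 1) := mul_nonneg (by positivity) (norm_nonneg _)
      calc (m * sz (mt z - 1)) ^ 2 ≤ (ρ / 2) ^ 2 := pow_le_pow_left₀ h5 h4 2
        _ = ρ ^ 2 / 4 := by ring
    have hp : 0 < ρ ^ 2 := by positivity
    have h6 : (3 / 4 : ℝ) ^ A ≤ et A ρ (mt z) := by
      unfold et
      rw [if_pos (by linarith)]
      refine pow_le_pow_left₀ (by norm_num) ?_ A
      have : fsq (mt z - 1) / ρ ^ 2 ≤ 1 / 4 := by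
        rw [div_le_iff₀ hp]
        linarith
      linarith
    have h7 : (1 : ℝ) ≤ (4 / 3) ^ A * et A ρ (mt z) := by
      calc (1 : ℝ) = (4 / 3) ^ A * (3 / 4) ^ A := by
            rw [← mul_pow]
            norm_num
        _ ≤ (4 / 3) ^ A * et A ρ (mt z) := mul_le_mul_of_nonneg_left h6 (by positivity)
    calc ‖phi0 κ mu (mt z)‖ ^ 2 = 1 * ‖phi0 κ mu (mt z)‖ ^ 2 := (one_mul _).symm
      _ ≤ ((4 / 3) ^ A * et A ρ (mt z)) * ‖phi0 κ mu (mt z)‖ ^ 2 :=
          mul_le_mul_of_nonneg_right h7 (sq_nonneg _)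
      _ = _ := by ring
  calc ∫ z in {z : V m | sz (mt z - 1) ≤ ρ / (2 * m)}, ‖phi0 κ mu (mt z)‖ ^ 2 ∂(hm m)
      ≤ ∫ z in {z : V m | sz (mt z - 1) ≤ ρ / (2 * m)},
        (4 / 3) ^ A * (et A ρ (mt z) * ‖phi0 κ mu (mt z)‖ ^ 2) ∂(hm m) := by
        refine integral_mono_of_nonneg (Filter.Eventually.of_forall fun z => sq_nonneg _)
          (hint.const_mul _).integrableOn ?_
        exact (ae_restrict_iff' hBmeas).mpr (Filter.Eventually.of_forall hpt)
    _ ≤ ∫ z, (4 / 3) ^ A * (et A ρ (mt z) * ‖phi0 κ mu (mt z)‖ ^ 2) ∂(hm m) :=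
        setIntegral_le_integral (hint.const_mul _) (Filter.Eventually.of_forall fun z =>
          mul_nonneg (by positivity) (mul_nonneg (et_nn hA1 hρ _) (sq_nonneg _)))
    _ = (4 / 3) ^ A * ∫ z, et A ρ (mt z) * ‖phi0 κ mu (mt z)‖ ^ 2 ∂(hm m) :=
        integral_const_mul _ _
    _ ≤ (4 / 3) ^ A * (B * B * C1 * C2 * (h + 1) * Pw (fun j => (mu j).im)) :=
        mul_le_mul_of_nonneg_left hI (by positivity)
    _ = _ := by ring

end Pool.Agent.H27.L1.H69.GK
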